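import Pool.Agent.V11248.Sq.Nine

/-!
# MP_9a8e62_lc: the Ostaszewski square at a regular cardinal does not imply `2 ^ λ = λ⁺`

For every uncountable regular cardinal `λ` with `λ ^ (< λ) = λ` we force the Ostaszewski square at
`λ` together with `2 ^ λ > λ⁺`, keeping `λ` and `λ⁺` regular cardinals.
-/

namespace Pool.Agent.Results.MP_9a8e62_lc.FailsAtRegular

open Cardinal Pool.Agent.Helper669.Forcing Pool.Agent.V11248.Sq Pool.Agent.V11248.OS

universe u

/-- Every condition of `P` forces: `λ` and `λ⁺` are regular cardinals, the Ostaszewski square holds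
at `λ`, and no map from `λ⁺` is onto the power set of `λ` (that is, `2 ^ λ > λ⁺`). -/
def ForcesSquareWithLargePower (lam : Cardinal.{u}) (P : Type u) [Preorder P] : Prop :=
  ∀ p : P, p ∈ StaysRegular P lam ∧ p ∈ StaysRegular P (Order.succ lam) ∧
    p ∈ OSquare P (Order.succ lam).ord.ToType lam.ord.ToType ∧
    p ∈ fnot (PowLe P (Order.succ lam).ord.ToType lam.ord.ToType)

theorem forced {lam : Cardinal.{u}} (hreg : lam.IsRegular) (hunc : ℵ₀ < lam)
    (hpow : lam ^< lam ≤ lam) :
    ∃ (P : Type u) (_ : Preorder P), Nonempty P ∧ ForcesSquareWithLargePower lam P := by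
  have S := setup_of hreg hunc
  let J : Type u := (Order.succ ((2 : Cardinal.{u}) ^ lam)).out
  have hJ : #J = Order.succ ((2 : Cardinal.{u}) ^ lam) := mk_out _
  have hK : #(Order.succ lam).ord.ToType ≤ 2 ^ lam := by
    rw [mk_ord_toType]
    exact Order.succ_le_of_lt (cantor lam)
  let P : Type u := Cond (Order.succ lam).ord.ToType lam.ord.ToType PUnit.{u + 1} ×
    Add lam (J × lam.ord.ToType)
  refine ⟨P, inferInstance, ?_, fun p => ⟨?_, ?_, ?_, ?_⟩⟩
  · obtain ⟨a⟩ : Nonempty (Order.succ lam).ord.ToType := by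
      refine mk_ne_zero_iff.1 ?_
      rw [mk_ord_toType]
      exact (Order.bot_lt_succ lam).ne'
    obtain ⟨C, hC⟩ := exists_sq S a
    exact ⟨(⟨a, C, fun _ => PUnit.unit, hC⟩, ⟨fun _ => none, by
      simpa using aleph0_pos.trans hunc⟩)⟩
  · intro ν hν R
    exact regular_L S (by rwa [mk_out]) R p
  · intro ν hν R
    exact regular_K S hpow (by rw [mk_out]; exact Order.le_of_lt_succ hν) R p
  · exact mem_fex_of_mem CN (down_fand (down_SquareSeq _) (down_Guess _))
      ⟨squareSeq_CN S p, guess_CN S p⟩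
  · exact not_powLe S hK (by rw [hJ]; exact Order.lt_succ _)
      (by rw [hJ]; exact Order.succ_le_of_lt (cantor _)) p

theorem powerlt_of_inaccessible {lam : Cardinal.{u}} (h : lam.IsInaccessible) :
    lam ^< lam ≤ lam := by
  have S := setup_of h.isRegular h.aleph0_lt
  rw [powerlt_le]
  intro x hx
  let F : lam.ord.ToType → Set (x.out → lam.ord.ToType) := fun b => {f | ∀ i, f i < b}
  have h1 : (Set.univ : Set (x.out → lam.ord.ToType)) ⊆ ⋃ b, F b := by
    intro f _
    obtain ⟨b, hb⟩ := S.bddL (Set.range f) (mk_range_le.trans_lt (by rwa [mk_out]))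
    exact Set.mem_iUnion.2 ⟨b, fun i => hb _ ⟨i, rfl⟩⟩
  have h2 : ∀ b, #(F b) ≤ lam := by
    intro b
    have h3 : #(F b) ≤ #(x.out → Set.Iio b) :=
      mk_le_of_injective (f := fun f => fun i => (⟨f.1 i, f.2 i⟩ : Set.Iio b)) fun f g hfg => by
        apply Subtype.ext
        funext i
        exact congrArg Subtype.val (congrFun hfg i)
    refine h3.trans ?_
    rw [← power_def, mk_out]
    have h4 : #(Set.Iio b) < lam := S.smallL b
    calc #(Set.Iio b) ^ x ≤ (2 ^ #(Set.Iio b)) ^ x := power_le_power_right (cantor _).le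
      _ = 2 ^ (#(Set.Iio b) * x) := by rw [power_mul]
      _ ≤ lam := (h.isStrongPrelimit (mul_lt_of_lt h.aleph0_lt.le h4 hx)).le
  calc lam ^ x = #(x.out → lam.ord.ToType) := by rw [← power_def, mk_out, mk_ord_toType]
    _ = #(Set.univ : Set (x.out → lam.ord.ToType)) := mk_univ.symm
    _ ≤ #(⋃ b, F b) := mk_le_mk_of_subset h1
    _ ≤ #(lam.ord.ToType) * ⨆ b, #(F b) := mk_iUnion_le F
    _ ≤ lam * lam := mul_le_mul' (mk_ord_toType lam).le (ciSup_le' h2)
    _ = lam := mul_eq_self h.aleph0_lt.le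

/-- The Ostaszewski square at an uncountable regular cardinal `λ` does not imply `2 ^ λ = λ⁺`:
for every uncountable regular `λ` with `λ ^ (< λ) = λ` some forcing notion forces that `λ` and
`λ⁺` are regular cardinals, the Ostaszewski square holds at `λ`, and `2 ^ λ > λ⁺`; and there is
such a cardinal `λ` (an inaccessible cardinal in the universe `Type 1`). -/
theorem result :
    (∀ lam : Cardinal.{u}, lam.IsRegular → ℵ₀ < lam → lam ^< lam = lam →
      ∃ (P : Type u) (_ : Preorder P), Nonempty P ∧ ForcesSquareWithLargePower lam P) ∧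
    ∃ lam : Cardinal.{1}, lam.IsRegular ∧ ℵ₀ < lam ∧
      ∃ (P : Type 1) (_ : Preorder P), Nonempty P ∧ ForcesSquareWithLargePower lam P := by
  refine ⟨fun lam h1 h2 h3 => forced h1 h2 h3.le, ?_⟩
  have h : (univ.{0, 1} : Cardinal.{1}).IsInaccessible := IsInaccessible.univ
  exact ⟨univ.{0, 1}, h.isRegular, h.aleph0_lt, forced h.isRegular h.aleph0_lt
    (powerlt_of_inaccessible h)⟩

end Pool.Agent.Results.MP_9a8e62_lc.FailsAtRegular
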